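import Pool.Agent.MP_887f27_pr.H69.Spec

/-! Markov property of the Poisson clocks at a fixed time. -/

namespace Pool.Agent.MP_887f27_pr.H44

open MeasureTheory ProbabilityTheory Set
open scoped ENNReal
open Pool.Agent.MP_887f27_pr.H69

instance : NullSingletonClass ex1 := by
  unfold ex1 expMeasure gammaMeasure; infer_instance

lemma ex1_singleton (a : ℝ) : ex1 {a} = 0 := measure_singleton a

lemma ex1_Iic (a : ℝ) : ex1 (Iic a) = ENNReal.ofReal (1 - Real.exp (-(max a 0))) := by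
  rw [← ofReal_cdf, ex1, cdf_expMeasure_eq one_pos]
  split_ifs with h
  · rw [max_eq_left h, one_mul]
  · rw [max_eq_right (not_le.1 h).le]; simp

lemma ex1_Iio (a : ℝ) : ex1 (Iio a) = ENNReal.ofReal (1 - Real.exp (-(max a 0))) := by
  rw [measure_congr Iio_ae_eq_Iic, ex1_Iic]

lemma ex1_Ioi' (a : ℝ) : ex1 (Ioi a) = ENNReal.ofReal (Real.exp (-(max a 0))) := by
  have h1 : Real.exp (-(max a 0)) ≤ 1 := Real.exp_le_one_iff.2 (by simp)
  rw [← compl_Iic, prob_compl_eq_one_sub measurableSet_Iic, ex1_Iic, ← ENNReal.ofReal_one,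
    ← ENNReal.ofReal_sub _ (by linarith)]
  congr 1; ring

lemma ex1_Ici' (a : ℝ) : ex1 (Ici a) = ENNReal.ofReal (Real.exp (-(max a 0))) := by
  rw [← measure_congr Ioi_ae_eq_Ici, ex1_Ioi']

lemma ex1_Ioi {a : ℝ} (h : 0 ≤ a) : ex1 (Ioi a) = ENNReal.ofReal (Real.exp (-a)) := by
  rw [ex1_Ioi', max_eq_left h]

lemma ex1_Ici {a : ℝ} (h : 0 ≤ a) : ex1 (Ici a) = ENNReal.ofReal (Real.exp (-a)) := by
  rw [ex1_Ici', max_eq_left h]

lemma ex1_Iio_le {a : ℝ} (h : 0 ≤ a) : ex1 (Iio a) ≤ ENNReal.ofReal a := by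
  rw [ex1_Iio, max_eq_left h]
  refine ENNReal.ofReal_le_ofReal ?_
  have := Real.add_one_le_exp (-a)
  linarith

/-- The exponential law has no memory. -/
lemma memoryless {t : ℝ} (ht : 0 ≤ t) {B : Set ℝ} (hB : MeasurableSet B) :
    ex1 (Ici t) * ex1 {y | t + y ∈ B} = ex1 (B ∩ Ici t) := by
  have hm : Measurable fun y : ℝ => t + y := by fun_prop
  have key : ex1.restrict (Ici t) = ex1 (Ici t) • ex1.map (fun y => t + y) := by
    refine Measure.ext_of_Ici _ _ fun a => ?_
    rw [Measure.restrict_apply measurableSet_Ici, Measure.smul_apply,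
      Measure.map_apply hm measurableSet_Ici, Ici_inter_Ici, smul_eq_mul]
    have : (fun y => t + y) ⁻¹' Ici a = Ici (a - t) := by
      ext y; simp only [mem_preimage, mem_Ici]; constructor <;> intro h <;> linarith
    rw [this, ex1_Ici', ex1_Ici', ex1_Ici', ← ENNReal.ofReal_mul (Real.exp_pos _).le,
      ← Real.exp_add]
    congr 2
    rw [max_eq_left ht]
    rcases le_total a t with h | h
    · rw [max_eq_right h, max_eq_left ht, max_eq_right (by linarith)]; ring
    · rw [max_eq_left h, max_eq_left (ht.trans h), max_eq_left (by linarith)]; ring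
  rw [← Measure.restrict_apply hB, key, Measure.smul_apply, Measure.map_apply hm hB, smul_eq_mul]
  rfl

lemma meas_glue : ∀ n : ℕ,
    Measurable fun p : ℝ × (ℕ → ℝ) × (ℕ → ℝ) => glue n p.1 p.2.1 p.2.2
  | 0 => by
    simp only [glue]
    exact Measurable.ite (measurableSet_le (by fun_prop) (by fun_prop)) (by fun_prop) (by fun_prop)
  | n + 1 => by
    simp only [glue]
    refine Measurable.ite (measurableSet_le (by fun_prop) (by fun_prop)) (by fun_prop) ?_
    exact (meas_glue n).comp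
      (f := fun p : ℝ × (ℕ → ℝ) × (ℕ → ℝ) => (p.1 - p.2.1 0, (fun i => p.2.1 (i + 1)), p.2.2))
      (by fun_prop)

lemma meas_glue1 (t : ℝ) :
    Measurable fun (p : (ℕ → ℝ) × (ℕ → ℝ)) (n : ℕ) => glue n t p.1 p.2 :=
  measurable_pi_lambda _ fun n => (meas_glue n).comp (f := fun p => (t, p)) (by fun_prop)

lemma map_head : (mu1.prod mu1).map
    (fun p : (ℕ → ℝ) × (ℕ → ℝ) => (p.1 0, ((fun i => p.1 (i + 1)), p.2))) =
      ex1.prod (mu1.prod mu1) := by
  have h1 : mu1.map (fun a => (a 0, fun i => a (i + 1))) = ex1.prod mu1 := map_cons ex1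
  rw [← Measure.prodAssoc_prod, ← h1]
  conv_rhs => rw [← Measure.map_id (μ := mu1)]
  rw [Measure.map_id]
  have h2 : (mu1.map (fun a => (a 0, fun i => a (i + 1)))).prod mu1 =
      (mu1.prod mu1).map (Prod.map (fun a => (a 0, fun i => a (i + 1))) id) := by
    rw [← Measure.map_prod_map _ _ (by fun_prop) measurable_id, Measure.map_id]
  rw [h2, Measure.map_map (MeasurableEquiv.measurable _) (by fun_prop)]
  rfl

lemma glue_box : ∀ (n : ℕ) (t : ℝ), 0 ≤ t → ∀ B : ℕ → Set ℝ, (∀ i, MeasurableSet (B i)) →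
    (mu1.prod mu1) {p | ∀ i < n, glue i t p.1 p.2 ∈ B i} = ∏ i ∈ Finset.range n, ex1 (B i)
  | 0, t, _, B, _ => by simp
  | n + 1, t, ht, B, hB => by
    set S : Set (ℝ × (ℕ → ℝ) × (ℕ → ℝ)) :=
      {q | (t ≤ q.1 ∧ t + q.2.2 0 ∈ B 0 ∧ ∀ i < n, q.2.2 (i + 1) ∈ B (i + 1)) ∨
        (¬ t ≤ q.1 ∧ q.1 ∈ B 0 ∧ ∀ i < n, glue i (t - q.1) q.2.1 q.2.2 ∈ B (i + 1))} with hS
    have hB' : ∀ i, Measurable fun x : ℝ => x ∈ B i := fun i => measurableSet_setOfPred.1 (hB i)
    have mS : MeasurableSet S := by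
      have h0 : Measurable fun q : ℝ × (ℕ → ℝ) × (ℕ → ℝ) => t ≤ q.1 :=
        measurableSet_setOfPred.1 (measurableSet_le (by fun_prop) (by fun_prop))
      refine measurableSet_setOfPred.2 (Measurable.or (h0.and (Measurable.and ?_ ?_))
        (h0.not.and (Measurable.and ?_ ?_)))
      · exact (hB' 0).comp (by fun_prop)
      · exact Measurable.forall fun i => measurable_const.imp ((hB' _).comp (by fun_prop))
      · exact (hB' 0).comp (by fun_prop)
      · refine Measurable.forall fun i => measurable_const.imp ((hB' _).comp ?_)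
        exact (meas_glue i).comp
          (f := fun q : ℝ × (ℕ → ℝ) × (ℕ → ℝ) => (t - q.1, q.2)) (by fun_prop)
    have e1 : {p : (ℕ → ℝ) × (ℕ → ℝ) | ∀ i < n + 1, glue i t p.1 p.2 ∈ B i} =
        (fun p : (ℕ → ℝ) × (ℕ → ℝ) => (p.1 0, ((fun i => p.1 (i + 1)), p.2))) ⁻¹' S := by
      ext p
      simp only [mem_ofPred_eq, mem_preimage, hS, Nat.forall_lt_succ_left]
      by_cases h : t ≤ p.1 0 <;> simp [glue, h]
    rw [e1, ← Measure.map_apply (by fun_prop) mS, map_head, Measure.prod_apply mS]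
    set P := ∏ i ∈ Finset.range n, ex1 (B (i + 1)) with hP
    have hc : (mu1.prod mu1) {q : (ℕ → ℝ) × (ℕ → ℝ) |
        t + q.2 0 ∈ B 0 ∧ ∀ i < n, q.2 (i + 1) ∈ B (i + 1)} = ex1 {y | t + y ∈ B 0} * P := by
      set B' : ℕ → Set ℝ := fun i => Nat.casesOn i {y | t + y ∈ B 0} (fun j => B (j + 1)) with hB''
      have mB' : ∀ i, MeasurableSet (B' i) := by
        intro i
        cases i with
        | zero => exact (hB 0).preimage (f := fun y : ℝ => t + y) (by fun_prop)
        | succ j => exact hB _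
      have : {q : (ℕ → ℝ) × (ℕ → ℝ) | t + q.2 0 ∈ B 0 ∧ ∀ i < n, q.2 (i + 1) ∈ B (i + 1)} =
          univ ×ˢ (Set.pi (↑(Finset.range (n + 1))) B') := by
        ext q
        simp only [mem_ofPred_eq, mem_prod, mem_univ, true_and, Set.mem_pi, Finset.mem_coe,
          Finset.mem_range, Nat.forall_lt_succ_left]
        rfl
      rw [this, Measure.prod_prod, measure_univ, one_mul, mu1,
        Measure.infinitePi_pi _ (fun i _ => mB' i), Finset.prod_range_succ', mul_comm]
      rfl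
    have e2 : ∀ᵐ a ∂ex1, (mu1.prod mu1) (Prod.mk a ⁻¹' S) =
        (Ici t).indicator (fun _ => ex1 {y | t + y ∈ B 0} * P) a +
          (B 0 \ Ici t).indicator (fun _ => P) a := by
      refine Filter.Eventually.of_forall fun a => ?_
      by_cases h : t ≤ a
      · rw [indicator_of_mem (show a ∈ Ici t from h),
          indicator_of_notMem (fun h' : a ∈ B 0 \ Ici t => h'.2 h), add_zero, ← hc]
        congr 1
        ext q; simp [hS, h]
      · rw [indicator_of_notMem (show a ∉ Ici t from h), zero_add]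
        by_cases hb : a ∈ B 0
        · rw [indicator_of_mem (show a ∈ B 0 \ Ici t from ⟨hb, h⟩), hP,
            ← glue_box n (t - a) (by linarith [not_le.1 h]) (fun i => B (i + 1)) (fun i => hB _)]
          congr 1
          ext q; simp [hS, h, hb, not_le.1 h]
        · rw [indicator_of_notMem (fun h' : a ∈ B 0 \ Ici t => hb h'.1)]
          have : Prod.mk a ⁻¹' S = ∅ := by ext q; simp [hS, h, hb]
          rw [this, measure_empty]
    rw [lintegral_congr_ae e2, lintegral_add_left (measurable_const.indicator measurableSet_Ici),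
      lintegral_indicator_const measurableSet_Ici,
      lintegral_indicator_const ((hB 0).diff measurableSet_Ici), Finset.prod_range_succ', ← hP,
      ← measure_inter_add_sdiff (B 0) (measurableSet_Ici (a := t)), ← memoryless ht (hB 0)]
    ring

lemma glue_law {t : ℝ} (ht : 0 ≤ t) :
    (mu1.prod mu1).map (fun p n => glue n t p.1 p.2) = mu1 := by
  classical
  conv_rhs => unfold mu1
  apply Measure.eq_infinitePi
  intro s B hB
  rw [Measure.map_apply (meas_glue1 t) (MeasurableSet.pi s.countable_toSet (fun i _ => hB i))]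
  obtain ⟨n, hn⟩ : ∃ n, s ⊆ Finset.range n := Finset.exists_nat_subset_range s
  have := glue_box n t ht (fun i => if i ∈ s then B i else univ)
    (fun i => by split_ifs; exacts [hB i, MeasurableSet.univ])
  have e : ∏ i ∈ Finset.range n, ex1 (if i ∈ s then B i else univ) = ∏ i ∈ s, ex1 (B i) := by
    rw [← Finset.prod_subset hn (fun i _ hi => by simp [hi])]
    exact Finset.prod_congr rfl fun i hi => by simp [hi]
  rw [← e, ← this]
  congr 1
  ext p
  simp only [mem_preimage, Set.mem_pi, Finset.mem_coe, mem_ofPred_eq]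
  constructor
  · intro h i _
    split_ifs with hi
    exacts [h i hi, mem_univ _]
  · intro h i hi
    have := h i (Finset.mem_range.1 (hn hi))
    simpa [hi] using this

lemma tm_zero (ξ : ℕ → ℝ) : tm ξ 0 = ξ 0 := by simp [tm]

lemma tm_succ' (ξ : ℕ → ℝ) (n : ℕ) : tm ξ (n + 1) = ξ 0 + tm (fun i => ξ (i + 1)) n := by
  rw [tm, Finset.sum_range_succ', add_comm]; rfl

lemma cnt_spec {ξ : ℕ → ℝ} {t : ℝ} (h : ∃ n, t ≤ tm ξ n) : t ≤ tm ξ (cnt ξ t) :=
  Nat.sInf_mem (s := {n | t ≤ tm ξ n}) h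

lemma cnt_le {ξ : ℕ → ℝ} {t : ℝ} {n : ℕ} (h : t ≤ tm ξ n) : cnt ξ t ≤ n :=
  Nat.sInf_le (s := {n | t ≤ tm ξ n}) h

lemma tm_lt_of_lt_cnt {ξ : ℕ → ℝ} {t : ℝ} {n : ℕ} (h : n < cnt ξ t) : tm ξ n < t :=
  not_le.1 fun h' => absurd (cnt_le h') (not_le.2 h)

lemma cnt_tail {ξ : ℕ → ℝ} {t : ℝ} (h : ∃ n, t ≤ tm ξ n) (h0 : ¬ t ≤ ξ 0) :
    (∃ n, t - ξ 0 ≤ tm (fun i => ξ (i + 1)) n) ∧
      cnt ξ t = cnt (fun i => ξ (i + 1)) (t - ξ 0) + 1 := by
  have h1 := cnt_spec h
  obtain ⟨c, hc⟩ : ∃ c, cnt ξ t = c + 1 := by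
    rcases hc : cnt ξ t with _ | c
    · rw [hc, tm_zero] at h1; exact absurd h1 h0
    · exact ⟨c, rfl⟩
  rw [hc, tm_succ'] at h1
  have h2 : t - ξ 0 ≤ tm (fun i => ξ (i + 1)) c := by linarith
  refine ⟨⟨c, h2⟩, le_antisymm (cnt_le ?_) ?_⟩
  · rw [tm_succ']; linarith [cnt_spec ⟨c, h2⟩]
  · rw [hc]; exact Nat.succ_le_succ (cnt_le h2)

lemma glue_formula (ζ : ℕ → ℝ) : ∀ (c : ℕ) (t : ℝ) (ξ : ℕ → ℝ), (∃ n, t ≤ tm ξ n) →
    cnt ξ t = c → (∀ n, n < c → glue n t ξ ζ = ξ n) ∧
      ∀ n, tm (fun i => glue i t ξ ζ) (c + n) = t + tm ζ n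
  | 0, t, ξ, h, hc => by
    have h1 := cnt_spec h
    rw [hc, tm_zero] at h1
    refine ⟨fun n hn => absurd hn (Nat.not_lt_zero n), fun n => ?_⟩
    rw [zero_add]
    cases n with
    | zero => simp [tm_zero, glue, h1]
    | succ n => simp only [tm_succ', glue, h1, if_true]; ring
  | c + 1, t, ξ, h, hc => by
    have h0 : ¬ t ≤ ξ 0 := fun h0 => by
      have := cnt_le (ξ := ξ) (t := t) (n := 0) (by rwa [tm_zero])
      omega
    obtain ⟨h1, h2⟩ := cnt_tail h h0
    obtain ⟨i1, i2⟩ := glue_formula ζ c (t - ξ 0) (fun i => ξ (i + 1)) h1 (by omega)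
    refine ⟨fun n hn => ?_, fun n => ?_⟩
    · cases n with
      | zero => simp [glue, h0]
      | succ n => simp only [glue, h0, if_false]; exact i1 n (by omega)
    · have : c + 1 + n = (c + n) + 1 := by omega
      rw [this, tm_succ']
      simp only [glue, h0, if_false]
      rw [i2]; ring

theorem glue_stmt : GlueStmt := by
  refine ⟨fun t => ?_, meas_glue1, fun t ht => glue_law ht, fun t ht => ?_, fun t ξ ζ h => ?_⟩
  · exact measurable_pi_lambda _ fun v =>
      (meas_glue1 t).comp (f := fun p : Clk × Clk => (p.1 v, p.2 v)) (by fun_prop)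
  · have := map_zip (fun _ : V => mu1) (fun _ : V => mu1) (meas_glue1 t)
    unfold muC
    rw [this]
    simp only [glue_law ht]
  · obtain ⟨h1, h2⟩ := glue_formula ζ _ t ξ h rfl
    refine ⟨h1, fun n hn => ?_, h2⟩
    exact Finset.sum_congr rfl fun i hi => h1 i (by have := Finset.mem_range.1 hi; omega)

end Pool.Agent.MP_887f27_pr.H44
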