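import Pool.Agent.MP_887f27_pr.H44.Glue

/-! Almost all clock fields are good. -/

namespace Pool.Agent.MP_887f27_pr.H44

open MeasureTheory ProbabilityTheory Set
open scoped ENNReal
open Pool.Agent.MP_887f27_pr.H69

lemma meas_tm (n : ℕ) : Measurable fun ξ : ℕ → ℝ => tm ξ n := by
  unfold tm; fun_prop

lemma mp_eval1 (n : ℕ) : MeasurePreserving (fun ξ : ℕ → ℝ => ξ n) mu1 ex1 :=
  measurePreserving_eval_infinitePi (fun _ : ℕ => ex1) n

lemma mp_evalC (v : V) : MeasurePreserving (fun ξ : Clk => ξ v) muC mu1 :=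
  measurePreserving_eval_infinitePi (fun _ : V => mu1) v

lemma ae_pos1 : ∀ᵐ ξ ∂mu1, ∀ n, 0 < ξ n := by
  refine ae_all_iff.2 fun n => (mp_eval1 n).quasiMeasurePreserving.ae (p := fun x => 0 < x) ?_
  rw [ae_iff]
  have : {a : ℝ | ¬ 0 < a} = Iic 0 := by ext a; simp
  rw [this, ex1_Iic]; simp

lemma le_tm {ξ : ℕ → ℝ} (h : ∀ n, 0 < ξ n) {i n : ℕ} (hi : i ≤ n) : ξ i ≤ tm ξ n :=
  Finset.single_le_sum (f := ξ) (fun k _ => (h k).le) (Finset.mem_range.2 (by omega))

lemma ae_unb1 : ∀ᵐ ξ ∂mu1, ∀ t, ∃ n, t ≤ tm ξ n := by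
  have key : ∀ k : ℕ, ∀ᵐ ξ ∂mu1, ∃ n, (k : ℝ) ≤ ξ n := by
    intro k
    rw [ae_iff]
    have hc : ex1 (Iio (k : ℝ)) < 1 := by
      rw [ex1_Iio, ENNReal.ofReal_lt_one]
      linarith [Real.exp_pos (-(max (k : ℝ) 0))]
    refine le_antisymm (ge_of_tendsto' (ENNReal.tendsto_pow_atTop_nhds_zero_of_lt_one hc)
      fun n => ?_) zero_le
    have := Measure.infinitePi_pi (fun _ : ℕ => ex1) (s := Finset.range n)
      (t := fun _ => Iio (k : ℝ)) (fun _ _ => measurableSet_Iio)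
    rw [Finset.prod_const, Finset.card_range] at this
    rw [← this]
    refine measure_mono fun ξ hξ i _ => ?_
    exact not_le.1 fun h => hξ ⟨i, h⟩
  filter_upwards [ae_all_iff.2 key, ae_pos1] with ξ h1 h2 t
  obtain ⟨k, hk⟩ := exists_nat_ge t
  obtain ⟨n, hn⟩ := h1 k
  exact ⟨n, hk.trans (hn.trans (le_tm h2 le_rfl))⟩

lemma tm_atom (n : ℕ) (c : ℝ) : mu1 {ξ | tm ξ n = c} = 0 := by
  cases n with
  | zero =>
    have := (mp_eval1 0).measure_preimage (s := {c}) (measurableSet_singleton c).nullMeasurableSet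
    rw [ex1_singleton] at this
    rw [← this]; congr 1; ext ξ; simp [tm_zero]
  | succ n =>
    have h1 : mu1.map (fun a => (a 0, fun i => a (i + 1))) = ex1.prod mu1 := map_cons ex1
    have mS : MeasurableSet {p : ℝ × (ℕ → ℝ) | p.1 + tm p.2 n = c} :=
      measurableSet_eq_fun (measurable_fst.add ((meas_tm n).comp measurable_snd)) measurable_const
    have h2 : (ex1.prod mu1) {p : ℝ × (ℕ → ℝ) | p.1 + tm p.2 n = c} = 0 := by
      rw [Measure.prod_apply_symm mS]
      refine lintegral_eq_zero_of_ae_eq_zero (Filter.Eventually.of_forall fun η => ?_)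
      have : (fun x => (x, η)) ⁻¹' {p : ℝ × (ℕ → ℝ) | p.1 + tm p.2 n = c} = {c - tm η n} := by
        ext x; simp only [mem_preimage, mem_ofPred_eq, mem_singleton_iff]
        constructor <;> intro h <;> linarith
      simp only [this, ex1_singleton, Pi.zero_apply]
    rw [← h1, Measure.map_apply (by fun_prop) mS] at h2
    rw [← h2]; congr 1; ext ξ; simp [tm_succ']

lemma ae_ne_pair {v w : V} (h : v ≠ w) (n m : ℕ) : ∀ᵐ ξ ∂muC, tm (ξ v) n ≠ tm (ξ w) m := by
  have h1 := map_prod_of_dep (fun _ : V => mu1) {v} (f := fun ξ => ξ v) (k := fun ξ => ξ w)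
    (by fun_prop) (by fun_prop) (fun a b hab => hab v rfl) (fun a b hab => hab w h.symm)
  rw [Measure.infinitePi_map_eval, Measure.infinitePi_map_eval] at h1
  have mS : MeasurableSet {p : (ℕ → ℝ) × (ℕ → ℝ) | tm p.1 n = tm p.2 m} :=
    measurableSet_eq_fun ((meas_tm n).comp measurable_fst) ((meas_tm m).comp measurable_snd)
  have h2 : (mu1.prod mu1) {p : (ℕ → ℝ) × (ℕ → ℝ) | tm p.1 n = tm p.2 m} = 0 := by
    rw [Measure.prod_apply_symm mS]
    exact lintegral_eq_zero_of_ae_eq_zero (Filter.Eventually.of_forall fun η => tm_atom n (tm η m))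
  rw [← h1, Measure.map_apply (by fun_prop) mS] at h2
  rw [ae_iff]
  simpa [muC] using h2

/-- Clocks with a ring in the open interval of length `1 / 8` after `a`. -/
def Ring (a : ℝ) : Set (ℕ → ℝ) := {ξ | ∃ n, a < tm ξ n ∧ tm ξ n < a + 1 / 8}

lemma ms_ring (a : ℝ) : MeasurableSet (Ring a) :=
  measurableSet_setOfPred.2 (Measurable.exists fun n => Measurable.and
    (measurableSet_setOfPred.1 (measurableSet_lt measurable_const (meas_tm n)))
    (measurableSet_setOfPred.1 (measurableSet_lt (meas_tm n) measurable_const)))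

lemma ring_le (hG : GlueStmt) {a : ℝ} (ha : 0 ≤ a) : mu1 (Ring a) ≤ 8⁻¹ := by
  obtain ⟨-, h2, h3, -, h5⟩ := hG
  rw [← h3 a ha, Measure.map_apply (h2 a) (ms_ring a)]
  have e : (mu1.prod mu1) (univ ×ˢ ((fun ζ : ℕ → ℝ => ζ 0) ⁻¹' Iio (1 / 8))) ≤ 8⁻¹ := by
    rw [Measure.prod_prod, measure_univ, one_mul,
      (mp_eval1 0).measure_preimage measurableSet_Iio.nullMeasurableSet]
    refine (ex1_Iio_le (by norm_num)).trans_eq ?_
    rw [one_div, ENNReal.ofReal_inv_of_pos (by norm_num)]; simp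
  refine (measure_mono_ae ?_).trans e
  filter_upwards [Measure.quasiMeasurePreserving_fst.ae ae_unb1,
    Measure.quasiMeasurePreserving_snd.ae ae_pos1] with p p1 p2 hp
  obtain ⟨n, hn1, hn2⟩ := hp
  obtain ⟨-, g2, g3⟩ := h5 a p.1 p.2 (p1 a)
  refine ⟨mem_univ _, ?_⟩
  rcases lt_or_ge n (cnt p.1 a) with h | h
  · rw [g2 n h] at hn1
    exact absurd (tm_lt_of_lt_cnt h) (not_lt.2 hn1.le)
  · obtain ⟨m, rfl⟩ := Nat.exists_eq_add_of_le h
    rw [g3] at hn2
    have := le_tm p2 (Nat.zero_le m)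
    show p.2 0 < 1 / 8
    linarith

/-- Vertices whose proper ancestors all lie in `U`. -/
inductive Anc (U : Set V) : V → Prop
  | root : Anc U 1
  | step {a : V} {d : Dir} : Anc U a → a ∈ U → nrm (a * g d) = nrm a + 1 → Anc U (a * g d)

lemma Anc.next {U : Set V} {a : V} (h : Anc U a) (ha : a ∈ U) (d : Dir) : Anc U (a * g d) := by
  rcases nrm_step a d with h1 | h1
  · cases h with
    | root => simp at h1
    | @step b e hb _ h2 =>
      have : d = rev e := inward_unique h1 (by rw [mul_g_rev]; omega)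
      rw [this, mul_g_rev]; exact hb
  · exact Anc.step h ha h1

lemma anc_set : ∀ (n : ℕ) (w : V), nrm w = n → ∃ S : Finset V, S.card = n ∧
    (∀ y ∈ S, nrm y < n) ∧ ∀ U, Anc U w → ∀ y ∈ S, y ∈ U
  | 0, _, _ => ⟨∅, by simp⟩
  | n + 1, w, hw => by
    classical
    by_cases h : ∃ d, nrm (w * g d) + 1 = nrm w
    · obtain ⟨d, hd⟩ := h
      obtain ⟨S, h1, h2, h3⟩ := anc_set n (w * g d) (by omega)
      have hn : w * g d ∉ S := fun hS => by have := h2 _ hS; omega
      refine ⟨insert (w * g d) S, by rw [Finset.card_insert_of_notMem hn, h1], ?_, ?_⟩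
      · intro y hy
        rcases Finset.mem_insert.1 hy with rfl | hy
        · omega
        · have := h2 y hy; omega
      · intro U hU y hy
        cases hU with
        | root => simp at hw
        | @step b e hb hbU h4 =>
          have : d = rev e := inward_unique hd (by rw [mul_g_rev]; omega)
          subst this
          rw [mul_g_rev] at hy h3
          rcases Finset.mem_insert.1 hy with rfl | hy
          · exact hbU
          · exact h3 U hb y hy
    · exfalso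
      have h1 : w ≠ 1 := fun e => by simp [e] at hw
      rcases hL : (w⁻¹).toWord with _ | ⟨d, L⟩
      · rw [nrm_eq, hL] at hw; simp at hw
      · rcases word_step w d with a | a
        · exact h ⟨d, by rw [nrm_eq w, nrm_eq (w * g d), a]; simp⟩
        · have hr := FreeGroup.isReduced_toWord (x := (w * g d)⁻¹)
          rw [a, hL] at hr
          have := (FreeGroup.isReduced_cons_cons.1 hr).1
          simp [rev] at this

lemma sum_nrm : ∑' w : V, (8⁻¹ : ℝ≥0∞) ^ nrm w ≠ ⊤ := by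
  have h1 : ∑' w : V, (8⁻¹ : ℝ≥0∞) ^ nrm w ≤ ∑' L : List Dir, (8⁻¹ : ℝ≥0∞) ^ L.length :=
    ENNReal.tsum_comp_le_tsum_of_injective FreeGroup.toWord_injective
      (fun L : List Dir => (8⁻¹ : ℝ≥0∞) ^ L.length)
  refine ne_top_of_le_ne_top ?_ h1
  rw [← (List.equivSigmaTuple (α := Dir)).symm.tsum_eq, ENNReal.tsum_sigma']
  have : ∀ n : ℕ, ∑' f : Fin n → Dir,
      (8⁻¹ : ℝ≥0∞) ^ ((List.equivSigmaTuple (α := Dir)).symm ⟨n, f⟩).length = 2⁻¹ ^ n := by
    intro n
    have e : (4 : ℝ≥0∞) * 8⁻¹ = 2⁻¹ := by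
      have : (8 : ℝ≥0∞) = 4 * 2 := by norm_num
      rw [this, ENNReal.mul_inv (by simp) (by simp), ← mul_assoc,
        ENNReal.mul_inv_cancel (by simp) (by simp), one_mul]
    rw [tsum_fintype, ← e, mul_pow]
    simp [List.equivSigmaTuple]
  simp only [this, ENNReal.tsum_geometric_two]
  simp

lemma ae_finite_anc (hG : GlueStmt) (v : V) {a : ℝ} (ha : 0 ≤ a) :
    ∀ᵐ ξ ∂muC, {w | Anc {y | ξ (v * y) ∈ Ring a} w}.Finite := by
  classical
  refine ae_finite_setOfPred_mem (s := fun w => {ξ : Clk | Anc {y | ξ (v * y) ∈ Ring a} w})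
    (ne_top_of_le_ne_top sum_nrm (ENNReal.tsum_le_tsum fun w => ?_))
  obtain ⟨S, h1, -, h3⟩ := anc_set _ w rfl
  have := Measure.infinitePi_pi (fun _ : V => mu1) (s := S.image (v * ·))
    (t := fun _ => Ring a) (fun _ _ => ms_ring a)
  rw [Finset.prod_const, Finset.card_image_of_injective _ (mul_right_injective v), h1] at this
  refine le_trans (measure_mono ?_) (this.le.trans (pow_le_pow_left' (ring_le hG ha) _))
  intro ξ hξ y hy
  obtain ⟨z, hz, rfl⟩ := Finset.mem_image.1 hy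
  exact h3 _ hξ z hz

lemma Ok.succ {ξ : Clk} : ∀ {D v t}, Ok ξ D v t → Ok ξ (D + 1) v t
  | 0, _, _, h => h.elim
  | _ + 1, _, _, h => h.imp id fun h d => Ok.succ (h d)

lemma Ok.mono {ξ : Clk} {D D' : ℕ} {v : V} {t : ℝ} (h : Ok ξ D v t) (hD : D ≤ D') :
    Ok ξ D' v t := by
  induction hD with
  | refl => exact h
  | step _ ih => exact Ok.succ ih

lemma ok_of_nbrs {ξ : Clk} {v : V} {t : ℝ}
    (h : ∀ d, ∃ D, Ok ξ D (v * g d) (tm (ξ v) (cnt (ξ v) t - 1))) : ∃ D, Ok ξ D v t := by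
  choose D hD using h
  exact ⟨Finset.univ.sup D + 1,
    Or.inr fun d => Ok.mono (hD d) (Finset.le_sup (f := D) (Finset.mem_univ d))⟩

lemma terminate {ξ : Clk} (h1 : ∀ v n, 0 < ξ v n) (h2 : ∀ v t, ∃ n, t ≤ tm (ξ v) n)
    (h3 : ∀ v (j : ℕ), {w | Anc {y | ξ (v * y) ∈ Ring (j / 8)} w}.Finite) :
    ∀ (j : ℕ) (v : V) (t : ℝ), t ≤ j / 8 → ∃ D, Ok ξ D v t
  | 0, v, t, ht => by
    refine ⟨1, Or.inl (Nat.le_zero.1 (cnt_le ?_))⟩
    rw [tm_zero]
    have := h1 v 0
    simp at ht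
    linarith
  | j + 1, v, t, ht => by
    have key : ∀ (N : ℕ) (t : ℝ), t ≤ ((j + 1 : ℕ) : ℝ) / 8 →
        ∑ w ∈ (h3 v j).toFinset, cnt (ξ (v * w)) t < N →
        ∀ y, Anc {y | ξ (v * y) ∈ Ring (j / 8)} y → ∃ D, Ok ξ D (v * y) t := by
      intro N
      induction N with
      | zero => intro t _ h; omega
      | succ N ih =>
        intro t ht hN y hy
        by_cases h0 : cnt (ξ (v * y)) t = 0
        · exact ⟨1, Or.inl h0⟩
        refine ok_of_nbrs fun d => ?_
        set s := tm (ξ (v * y)) (cnt (ξ (v * y)) t - 1) with hs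
        have hst : s < t := tm_lt_of_lt_cnt (by omega)
        rcases le_or_gt s (j / 8) with h | h
        · exact terminate h1 h2 h3 j _ s h
        · rw [mul_assoc]
          refine ih s (hst.le.trans ht) ?_ _ (hy.next ⟨_, h, ?_⟩ d)
          · refine lt_of_lt_of_le (Finset.sum_lt_sum (fun w _ => ?_) ⟨y, by simpa using hy, ?_⟩)
              (Nat.lt_succ_iff.1 hN)
            · exact cnt_le (hst.le.trans (cnt_spec (h2 _ t)))
            · have := cnt_le (ξ := ξ (v * y)) (t := s) hs.le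
              omega
          · push_cast at ht
            linarith
    simpa using key _ t ht (Nat.lt_succ_self _) 1 Anc.root

theorem good : GoodStmt := by
  intro hG
  have a1 : ∀ᵐ ξ ∂muC, ∀ v n, 0 < ξ v n :=
    ae_all_iff.2 fun v => (mp_evalC v).quasiMeasurePreserving.ae ae_pos1
  have a2 : ∀ᵐ ξ ∂muC, ∀ v t, ∃ n, t ≤ tm (ξ v) n :=
    ae_all_iff.2 fun v => (mp_evalC v).quasiMeasurePreserving.ae ae_unb1
  have a3 : ∀ᵐ ξ ∂muC, ∀ v w n m, v ≠ w → tm (ξ v) n ≠ tm (ξ w) m := by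
    refine ae_all_iff.2 fun v => ae_all_iff.2 fun w => ae_all_iff.2 fun n => ae_all_iff.2 fun m => ?_
    by_cases h : v = w
    · exact Filter.Eventually.of_forall fun _ h' => absurd h h'
    · filter_upwards [ae_ne_pair h n m] with ξ hξ _ using hξ
  have a4 : ∀ᵐ ξ ∂muC, ∀ v n (k : ℕ), tm (ξ v) n ≠ k := by
    refine ae_all_iff.2 fun v => ae_all_iff.2 fun n => ae_all_iff.2 fun k =>
      (mp_evalC v).quasiMeasurePreserving.ae (p := fun η => tm η n ≠ k) ?_
    rw [ae_iff]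
    simpa using tm_atom n k
  have a5 : ∀ᵐ ξ ∂muC, ∀ v (j : ℕ), {w | Anc {y | ξ (v * y) ∈ Ring (j / 8)} w}.Finite :=
    ae_all_iff.2 fun v => ae_all_iff.2 fun j => ae_finite_anc hG v (by positivity)
  filter_upwards [a1, a2, a3, a4, a5] with ξ h1 h2 h3 h4 h5
  refine ⟨h1, h2, h3, h4, fun v t => ?_⟩
  obtain ⟨j, hj⟩ := exists_nat_ge (8 * t)
  exact terminate h1 h2 h5 j v t (by linarith)

theorem goodAE : GoodAE := good glue_stmt

end Pool.Agent.MP_887f27_pr.H44
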